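import Pool.Agent.Run7.h568.DG.CIface

/-!
# The Teichmueller space of a portal is nonempty (piece `C_ne`)
-/

open Real Matrix Filter Topology

noncomputable section

namespace Run7.h975.DG

open Run7.h568.DG

variable {D : Type} [Fintype D] [DecidableEq D]

theorem rho_inj (T : Tri D) : Function.Injective T.rho := by
  intro a b h
  have h1 := T.io.injective h
  exact T.sg.injective (T.sg.injective h1)

theorem per_pos (T : Tri D) (d : D) : 0 < Function.minimalPeriod T.rho d :=
  Function.minimalPeriod_pos_of_mem_periodicPts ((rho_inj T).mem_periodicPts d)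

theorem rho_prev (T : Tri D) (e : D) : T.sg (T.io (T.rho e)) = e := by
  unfold Tri.rho
  rw [T.io_io, T.sg3]

/-- Telescoping around a puncture, with a jump `g`. -/
theorem cyc_tele (T : Tri D) (x c g : D → ℝ)
    (h : ∀ d, x d = c (T.sg (T.io d)) - c d + g d) (d : D) : T.cyc x d = T.cyc g d := by
  unfold Tri.cyc
  have key : ∀ n : ℕ, ∑ j ∈ Finset.range n, x (T.rho^[j] d) =
      c (T.sg (T.io d)) - c (T.sg (T.io (T.rho^[n] d)))
        + ∑ j ∈ Finset.range n, g (T.rho^[j] d) := by
    intro n
    induction n with
    | zero => simp
    | succ n ih =>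
      rw [Finset.sum_range_succ, Finset.sum_range_succ, ih, h (T.rho^[n] d),
        Function.iterate_succ_apply', rho_prev]
      ring
  rw [key, Function.iterate_minimalPeriod]
  ring

theorem cyc_ind_self (T : Tri D) (a : D) :
    T.cyc (fun d => if d = a then (1 : ℝ) else 0) a = 1 := by
  unfold Tri.cyc
  rw [Finset.sum_eq_single_of_mem 0 (Finset.mem_range.2 (per_pos T a))]
  · simp
  · intro j hj hj0
    have hlt := Finset.mem_range.1 hj
    have : ¬ Function.IsPeriodicPt T.rho j a :=
      Function.not_isPeriodicPt_of_pos_of_lt_minimalPeriod hj0 hlt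
    exact if_neg this

theorem cyc_ind_other (T : Tri D) (a d : D) (h : ∀ j, T.rho^[j] d ≠ a) :
    T.cyc (fun d => if d = a then (1 : ℝ) else 0) d = 0 := by
  unfold Tri.cyc
  refine Finset.sum_eq_zero fun j _ => ?_
  exact if_neg (h j)

theorem orbit_symm (T : Tri D) (a b : D) (h : ∀ j, T.rho^[j] a ≠ b) (j : ℕ) :
    T.rho^[j] b ≠ a := by
  intro hj
  have hp := per_pos T b
  have hm : j ≤ j * Function.minimalPeriod T.rho b := Nat.le_mul_of_pos_right j hp
  apply h (j * Function.minimalPeriod T.rho b - j)
  rw [← hj, ← Function.iterate_add_apply, Nat.sub_add_cancel hm]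
  exact (Function.isPeriodicPt_minimalPeriod T.rho b).const_mul j

/-- `C_ne`: the Teichmueller space of a surface glued from `T` along a portal is nonempty. -/
theorem ne : C_ne := by
  intro D _ _ T P
  have huv0 : P.u ≠ P.v := by simpa using P.huv 0
  have hu : T.io P.u ≠ P.u := T.io_ne P.u
  have hv : T.io P.v ≠ P.v := T.io_ne P.v
  have hne : P.v ≠ T.io P.u := P.hne
  have hne' : P.u ≠ T.io P.v := by
    intro h
    apply hne
    rw [h, T.io_io]
  have hio : T.io P.u ≠ T.io P.v := fun h => huv0 (T.io.injective h)
  let N : D → ℝ := fun d => if d = T.io P.u ∨ d = P.v then 2 else 1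
  let c : D → ℝ := fun d => (N d + N (T.sg (T.sg d)) - N (T.sg d)) / 2
  have hN : ∀ d, N d = c d + c (T.sg d) := by
    intro d
    simp only [c]
    rw [T.sg3]
    ring
  let x : D → ℝ := fun d => if d = T.io P.u then c (T.sg P.u) - c (T.io P.u)
    else if d = T.io P.v then c (T.sg P.v) - c (T.io P.v) else c (T.sg d) - c (T.io d)
  have hNu : N P.u = 1 := by
    simp only [N]
    rw [if_neg]
    rintro (h | h)
    · exact hu h.symm
    · exact huv0 h
  have hNiu : N (T.io P.u) = 2 := if_pos (Or.inl rfl)
  have hNv : N P.v = 2 := if_pos (Or.inr rfl)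
  have hNiv : N (T.io P.v) = 1 := by
    simp only [N]
    rw [if_neg]
    rintro (h | h)
    · exact hio h.symm
    · exact hv h
  have hxiu : x (T.io P.u) = c (T.sg P.u) - c (T.io P.u) := if_pos rfl
  have hxiv : x (T.io P.v) = c (T.sg P.v) - c (T.io P.v) :=
    (if_neg hio.symm).trans (if_pos rfl)
  have hxo : ∀ d, d ≠ T.io P.u → d ≠ T.io P.v → x d = c (T.sg d) - c (T.io d) := by
    intro d h1 h2
    simp only [x]
    rw [if_neg h1, if_neg h2]
  have hxu : x P.u = c (T.sg P.u) - c (T.io P.u) := hxo P.u hu.symm hne'
  have hxv : x P.v = c (T.sg P.v) - c (T.io P.v) := hxo P.v hne hv.symm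
  let g : D → ℝ := fun d => (if d = P.v then (1 : ℝ) else 0) - (if d = P.u then (1 : ℝ) else 0)
  -- the jump relation
  have hjump : ∀ d, x d = c (T.sg (T.io d)) - c d + g d := by
    intro d
    have e1 := hN d
    have e2 := hN (T.io d)
    by_cases h1 : d = T.io P.u
    · subst h1
      have hg : g (T.io P.u) = 0 := by
        simp only [g]
        rw [if_neg hne.symm, if_neg hu]
        ring
      rw [hxiu, hg, T.io_io]
      ring
    · by_cases h2 : d = T.io P.v
      · subst h2
        have hg : g (T.io P.v) = 0 := by
          simp only [g]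
          rw [if_neg hv, if_neg hne'.symm]
          ring
        rw [hxiv, hg, T.io_io]
        ring
      · rw [hxo d h1 h2]
        by_cases h3 : d = P.u
        · subst h3
          have hg : g P.u = -1 := by
            have e3 : (if P.u = P.v then (1 : ℝ) else 0) = 0 := if_neg huv0
            have e4 : (if P.u = P.u then (1 : ℝ) else 0) = 1 := if_pos rfl
            show (if P.u = P.v then (1 : ℝ) else 0) - (if P.u = P.u then (1 : ℝ) else 0) = -1
            rw [e3, e4]
            ring
          rw [hg]
          rw [hNu] at e1
          rw [hNiu] at e2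
          linarith
        · by_cases h4 : d = P.v
          · subst h4
            have hg : g P.v = 1 := by
              have e3 : (if P.v = P.v then (1 : ℝ) else 0) = 1 := if_pos rfl
              have e4 : (if P.v = P.u then (1 : ℝ) else 0) = 0 := if_neg h3
              show (if P.v = P.v then (1 : ℝ) else 0) - (if P.v = P.u then (1 : ℝ) else 0) = 1
              rw [e3, e4]
              ring
            rw [hg]
            rw [hNv] at e1
            rw [hNiv] at e2
            linarith
          · have hg : g d = 0 := by
              simp only [g]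
              rw [if_neg h4, if_neg h3]
              ring
            have hNd : N d = 1 := by
              simp only [N]
              rw [if_neg]
              rintro (h | h)
              · exact h1 h
              · exact h4 h
            have hNid : N (T.io d) = 1 := by
              simp only [N]
              rw [if_neg]
              rintro (h | h)
              · exact h3 (T.io.injective h)
              · exact h2 (by rw [← h, T.io_io])
            rw [hg]
            rw [hNd] at e1
            rw [hNid] at e2
            linarith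
  -- invariance under `io`
  have hinv : ∀ d, x (T.io d) = x d := by
    intro d
    by_cases h1 : d = P.u
    · subst h1
      rw [hxiu, hxu]
    by_cases h2 : d = P.v
    · subst h2
      rw [hxiv, hxv]
    by_cases h3 : d = T.io P.u
    · subst h3
      rw [T.io_io, hxiu, hxu]
    by_cases h4 : d = T.io P.v
    · subst h4
      rw [T.io_io, hxiv, hxv]
    have h5 : T.io d ≠ T.io P.u := fun h => h1 (T.io.injective h)
    have h6 : T.io d ≠ T.io P.v := fun h => h2 (T.io.injective h)
    have hg : g d = 0 := by
      simp only [g]
      rw [if_neg h2, if_neg h1]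
      ring
    have hj := hjump d
    rw [hxo (T.io d) h5 h6, T.io_io, hj, hg]
    ring
  -- the sums around the punctures
  have hcyc : ∀ d, T.cyc x d = T.cyc (fun d => if d = P.v then (1 : ℝ) else 0) d
      - T.cyc (fun d => if d = P.u then (1 : ℝ) else 0) d := by
    intro d
    rw [cyc_tele T x c g hjump d]
    unfold Tri.cyc
    rw [← Finset.sum_sub_distrib]
  have hcv : T.cyc x P.v = 1 := by
    rw [hcyc, cyc_ind_self, cyc_ind_other T P.u P.v (orbit_symm T P.u P.v P.huv)]
    ring
  have hcu : T.cyc x P.u = -1 := by
    rw [hcyc, cyc_ind_self, cyc_ind_other T P.v P.u P.huv]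
    ring
  refine ⟨(x, 0), hinv, ?_, ?_, ?_⟩
  · show 0 < T.cyc x P.v
    rw [hcv]
    norm_num
  · show T.cyc x P.u = - T.cyc x P.v
    rw [hcv, hcu]
  · intro d h1 h2
    show T.cyc x d = 0
    rw [hcyc, cyc_ind_other T P.u d h1, cyc_ind_other T P.v d h2]
    ring

end Run7.h975.DG

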